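import Pool.Agent.helper26.EC.SpecE

set_option autoImplicit false

namespace Pool.Agent.EC

open Finset ArithmeticFunction
open Pool.Agent.CH (Win rgh dl eU Mo ClP ClB)
open Pool.Agent.CHS (PB WUp)

private theorem LCT_crt (e m a r : ℕ) (he : Nat.Coprime e 30) (hm : Nat.Coprime m 30) (hme : Nat.Coprime m e) :
    ∃ ρ : ℕ, ∀ j : ℕ, (j ≡ 0 [MOD e] ∧ j ≡ r [MOD m] ∧ j ≡ a [MOD 30]) ↔ j ≡ ρ [MOD (30 * e * m)] := by
  have h1 : Nat.Coprime 30 e := he.symm
  have h2 : Nat.Coprime (30 * e) m := Nat.Coprime.mul_left hm.symm hme.symm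
  obtain ⟨x, hx1, hx2⟩ := Nat.chineseRemainder h1 a 0
  obtain ⟨ρ, hρ1, hρ2⟩ := Nat.chineseRemainder h2 x r
  refine ⟨ρ, ?_⟩
  intro j
  have hρ3 := (Nat.modEq_and_modEq_iff_modEq_mul h1).2 hρ1
  rw [← Nat.modEq_and_modEq_iff_modEq_mul h2, ← Nat.modEq_and_modEq_iff_modEq_mul h1]
  constructor
  · rintro ⟨h3, h4, h5⟩
    refine ⟨⟨?_, ?_⟩, ?_⟩
    · exact h5.trans (hx1.symm.trans hρ3.1.symm)
    · exact h3.trans (hx2.symm.trans hρ3.2.symm)
    · exact h4.trans hρ2.symm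
  · rintro ⟨⟨h3, h4⟩, h5⟩
    refine ⟨?_, ?_, ?_⟩
    · exact h4.trans (hρ3.2.trans hx2)
    · exact h5.trans hρ2
    · exact h3.trans (hρ3.1.trans hx1)

private theorem LCT_prime (e m j : ℕ) (he : Nat.Coprime e 30) (hme : ¬ Nat.Coprime m e) (h1 : e ∣ j)
    (h2 : ∃ s : ℕ, (s = j + 6 ∨ j = s + 6) ∧ m ∣ s) : False := by
  obtain ⟨p, hp, hpm, hpe⟩ := Nat.Prime.not_coprime_iff_dvd.1 hme
  obtain ⟨s, hs, hms⟩ := h2
  have h3 : p ∣ j := hpe.trans h1
  have h4 : p ∣ s := hpm.trans hms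
  have h5 : p ∣ 6 := by
    rcases hs with hs | hs
    · rw [hs] at h4
      exact (Nat.dvd_add_right h3).1 h4
    · rw [hs] at h3
      exact (Nat.dvd_add_right h4).1 h3
  have h6 : p ∣ 30 := h5.trans (by norm_num)
  have h7 : p ∣ Nat.gcd e 30 := Nat.dvd_gcd hpe h6
  rw [he] at h7
  exact hp.one_lt.ne' (Nat.dvd_one.1 h7)

theorem LCT (h1 : TRA_stmt) : LCT_stmt := by
  obtain ⟨C, hC, h⟩ := h1
  refine ⟨C, hC, ?_⟩
  intro N e m a hN he1 hm1 he hm ha
  have hwin : ∀ j ∈ Win N, 6 ≤ j := by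
    intro j hj
    have h2 := (mem_Ioc.1 hj).1
    have h3 : 4 ^ 3 ≤ N ^ 3 := Nat.pow_le_pow_left hN 3
    omega
  have hq : 1 ≤ 30 * e * m := by
    have := Nat.mul_pos (Nat.mul_pos (by norm_num : 0 < 30) he1) hm1
    omega
  have ha' : ∀ j : ℕ, j % 30 = a ↔ j ≡ a [MOD 30] := by
    intro j
    unfold Nat.ModEq
    rw [Nat.mod_eq_of_lt ha]
  have hgen : ∀ (P : ℕ → Prop) [DecidablePred P] (r : ℕ), Nat.Coprime m e →
      (∀ j ∈ Win N, P j ↔ (j ≡ 0 [MOD e] ∧ j ≡ r [MOD m] ∧ j ≡ a [MOD 30])) →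
      |∑ j ∈ Win N with P j, fN N j - XN N / (30 * (e : ℝ) * m)| ≤ C := by
    intro P _ r hme hP
    obtain ⟨ρ, hρ⟩ := LCT_crt e m a r he hm hme
    have h2 := h N hN (30 * e * m) ρ hq
    have h3 : (Win N).filter P = (Win N).filter (fun j => j ≡ ρ [MOD (30 * e * m)]) :=
      Finset.filter_congr fun j hj => (hP j hj).trans (hρ j)
    rw [h3]
    have h4 : (((30 * e * m : ℕ)) : ℝ) = 30 * (e : ℝ) * m := by push_cast; ring
    rw [h4] at h2
    exact h2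
  by_cases hme : Nat.Coprime m e
  · rw [if_pos hme]
    constructor
    · refine hgen (fun j => e ∣ j ∧ m ∣ j + 6 ∧ j % 30 = a) (6 * (m - 1)) hme ?_
      intro j _
      have h2 : 6 * (m - 1) + 6 ≡ 0 [MOD m] := by
        rw [Nat.modEq_zero_iff_dvd]
        have : 6 * (m - 1) + 6 = m * 6 := by omega
        rw [this]
        exact dvd_mul_right m 6
      have h3 : m ∣ j + 6 ↔ j ≡ 6 * (m - 1) [MOD m] := by
        rw [← Nat.modEq_zero_iff_dvd]
        constructor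
        · intro h4
          exact Nat.ModEq.add_right_cancel' 6 (h4.trans h2.symm)
        · intro h4
          exact (Nat.ModEq.add_right 6 h4).trans h2
      rw [h3, ha' j, Nat.modEq_zero_iff_dvd]
    · refine hgen (fun j => e ∣ j ∧ m ∣ j - 6 ∧ j % 30 = a) 6 hme ?_
      intro j hj
      have h3 : m ∣ j - 6 ↔ j ≡ 6 [MOD m] := by
        rw [← Nat.modEq_iff_dvd' (hwin j hj)]
        exact ⟨fun h4 => h4.symm, fun h4 => h4.symm⟩
      rw [h3, ha' j, Nat.modEq_zero_iff_dvd]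
  · rw [if_neg hme]
    constructor
    · have h2 : (Win N).filter (fun j => e ∣ j ∧ m ∣ j + 6 ∧ j % 30 = a) = ∅ := by
        rw [Finset.filter_eq_empty_iff]
        rintro j _ ⟨h3, h4, _⟩
        exact LCT_prime e m j he hme h3 ⟨j + 6, Or.inl rfl, h4⟩
      rw [h2]
      simp only [sum_empty, sub_zero, abs_zero]
      exact hC.le
    · have h2 : (Win N).filter (fun j => e ∣ j ∧ m ∣ j - 6 ∧ j % 30 = a) = ∅ := by
        rw [Finset.filter_eq_empty_iff]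
        rintro j hj ⟨h3, h4, _⟩
        have h5 := hwin j hj
        exact LCT_prime e m j he hme h3 ⟨j - 6, Or.inr (by omega), h4⟩
      rw [h2]
      simp only [sum_empty, sub_zero, abs_zero]
      exact hC.le

end Pool.Agent.EC
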